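import Mathlib
import Pool.Agent.U491.EF.Main

/-!
# MP_caf32e_co, Q1: locally planar even-faced graphs on orientable surfaces are 4-list colourable

Let `K` be a finite connected graph with a cellular embedding `R` in the closed orientable surface
of genus `g`, and let `G` be a subgraph of `K` (so `G` is any graph embedded in the surface,
cellularly or not) all of whose facial boundary walks have even length.  If all noncontractible
cycles of `G` have length at least `90 g + 4`, then `G` is 4-list colourable.
-/

namespace Pool.Agent.Results.MP_caf32e_co.FourChoosable

open SimpleGraph Pool.Agent.U491.EF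

theorem result (g : ℕ) (V : Type) [Finite V] (K G : SimpleGraph V) (R : Rotation K)
    (hg : HasGenus R g) (hGK : G ≤ K) (hE : EvenFaced R G)
    (hN : ∀ (v : V) (c : G.Walk v v), c.IsCycle → ¬ Contractible R (c.mapLe hGK) →
      90 * g + 4 ≤ c.length) :
    ListColourable G 4 := by
  have : Fintype V := Fintype.ofFinite V
  exact main R hg hGK hE hN

end Pool.Agent.Results.MP_caf32e_co.FourChoosable
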